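import Pool.Agent.N692.TS.Main
import Pool.Agent.Results.MP_0e6b5f_nt.PeriodicDegrees

/-!
# MP_0e6b5f_nt: the degrees of the periodic points of Hénon maps along thin sequences

The starting result `PeriodicDegrees` shows that for 100% of the vectors `(b, c₀, …, c_d)` of integers
of a number field `K` in large boxes, and for all `δ ∈ O_K[1/D]` at once, all periodic points over the
algebraic closure of the Hénon map

  `f(x, y) = (y, φ(y) - δ x)`,  `φ = (c₀ + c₁ y + … + c_d y^d) / b`,

have degrees over `K` that are divisible by `d`.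

Here we prove this along thin sequences.  Let `P_{i j}` (`i, j = 0, 1, 2, …`) be generalised
polynomials `P(t) = ∑ a_x t ^ x` (finitely many real exponents, real coefficients) with distinct leading
exponents which are positive and not integers and have positive coefficients, for example
`P_{i j}(t) = t ^ ((i + j)² + i + √2)`.  For a number field `K` with the integral basis
`ω_0, …, ω_{m-1}` we consider the vectors of integers of `K`

  `c_i(t) = ∑_j ⌊P_{i j}(t)⌋ ω_j`,  `i = 0, …, d + 1`,

and the polynomials `φ_t = (c_1(t) + c_2(t) y + … + c_{d+1}(t) y^d) / c_0(t)`.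

**Theorem.**  There is ONE set `E` of positive integers of natural density zero, which has density zero
also in the set of the prime numbers, such that for ALL number fields `K`, all integral bases of `K`,
all degrees `d ≥ 2`, all nonzero `D ∈ O_K`, and for all but finitely many `t` outside `E` the
following holds for all `δ ∈ O_K[1/D]`, among them the area preserving maps `δ = 1` and all integral
Jacobians: `φ_t` has degree `d`, and `d` divides the degree over `K` of every finite extension `L` of
`K` such that the Hénon map `(x, y) ↦ (y, φ_t(y) - δ x)` has a periodic point in `L × L`.  The set `E`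
depends only on the `P_{i j}`.

Only `N` of the roughly `N ^ (sum of the leading exponents)` vectors of a box occur, so this is not a
consequence of the theorem for boxes.

Proof.  By `PeriodicDegrees` it suffices that there is a prime `v` of `K` which does not divide `D`
and divides `c_0` exactly, such that `c_1 + … + c_{d+1} y^d` is irreducible of degree `d` modulo `v`.
For the prime numbers `p` that are norms of prime ideals `v` of `K` this is a condition on the residues
modulo `p²` of the integers `⌊P_{i j}(t)⌋`, of density at least `(1/4d) (1/p - 1/p²)`, and the sum of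
these densities diverges by the theorem of Frobenius.  The integers `⌊P_{i j}(t)⌋` are jointly
equidistributed modulo all `q ≤ N^δ` (exponential sums), over the integers and over the prime numbers
`t ≤ N`, and Turan's sieve shows that almost all `t` have the property for `d`, `D` and `K`.  The
criterion depends only on the structure constants of the integral basis, so that there are countably
many conditions, and a diagonal argument gives one set for all `K`, `d` and `D`.
-/

set_option autoImplicit false

namespace Pool.Agent.Results.MP_0e6b5f_nt.ThinSequences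

open NumberField Module
open Pool.Agent.Results.MP_0e6b5f_nt.PeriodicDegrees (Exceptional)

/-- `c` is the largest exponent of the generalised polynomial `∑ a_x t ^ x`; it is positive and not an
integer and has a positive coefficient. -/
def Admissible (F : Finset ℝ) (a : ℝ → ℝ) (c : ℝ) : Prop :=
  c ∈ F ∧ (∀ x ∈ F, x ≤ c) ∧ 0 < c ∧ (∀ m : ℕ, c ≠ m) ∧ 0 < a c

/-- `E` has density zero relative to the sets `S N`. -/
def NullIn (S : ℕ → Finset ℕ) (E : Set ℕ) : Prop :=
  ∀ ε : ℝ, 0 < ε → ∃ N₀ : ℕ, ∀ N : ℕ, N₀ ≤ N →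
    ({t : ℕ | t ∈ S N ∧ t ∈ E}.ncard : ℝ) ≤ ε * (S N).card

/-- The vector of the integers `c_i(t) = ∑_j ⌊P_{i j}(t)⌋ ω_j` of `K`, where
`P_{i j}(t) = ∑_{x ∈ F i j} a_{i j x} t ^ x`. -/
noncomputable def vector {K : Type} [Field K] {m : ℕ} (ω : Module.Basis (Fin m) ℤ (𝓞 K))
    (F : ℕ → ℕ → Finset ℝ) (a : ℕ → ℕ → ℝ → ℝ) (d t : ℕ) (i : Fin (d + 2)) : 𝓞 K :=
  ∑ j : Fin m, ⌊∑ x ∈ F i j, a i j x * (t : ℝ) ^ x⌋ • ω j

section proof

open IsDedekindDomain Pool.Agent.TH377.Dyn Pool.Agent.TH377.Sup

/-- A nonzero element of a prime ideal divides its norm, so the factorial of the norm of the element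
lies in the prime ideal. -/
theorem fac_mem {K : Type} [Field K] [NumberField K] {D : 𝓞 K} (hD : D ≠ 0)
    (v : HeightOneSpectrum (𝓞 K)) (h : D ∈ v.asIdeal) :
    ((Nat.factorial (Algebra.norm ℤ D).natAbs : ℕ) : 𝓞 K) ∈ v.asIdeal := by
  have h1 : (Ideal.absNorm (Ideal.span {D}) : 𝓞 K) ∈ Ideal.span {D} := Ideal.absNorm_mem _
  have h2 : Ideal.span {D} ≤ v.asIdeal := (Ideal.span_singleton_le_iff_mem _).2 h
  have h3 : (((Algebra.norm ℤ D).natAbs : ℕ) : 𝓞 K) ∈ v.asIdeal := by
    have := h2 h1
    rwa [Ideal.absNorm_span_singleton] at this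
  have h4 : (Algebra.norm ℤ D).natAbs ≠ 0 := by
    rw [Ne, Int.natAbs_eq_zero, Algebra.norm_eq_zero_iff]
    exact hD
  obtain ⟨k, hk⟩ := Nat.dvd_factorial (Nat.pos_of_ne_zero h4) le_rfl
  rw [hk, Nat.cast_mul]
  exact v.asIdeal.mul_mem_right _ h3

theorem not_exceptional {K : Type} [Field K] [NumberField K] {d : ℕ} (hd : 2 ≤ d) {D : 𝓞 K}
    (hD : D ≠ 0) (c : Fin (d + 2) → 𝓞 K)
    (h : Pool.Agent.N692.TS.LocGood d (Algebra.norm ℤ D).natAbs c) :
    c ∉ Exceptional.{0, 0} K D d := by
  obtain ⟨v, hMv, h1, h2, h3⟩ := h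
  have hDv : D ∉ v.asIdeal := fun h => hMv (fac_mem hD v h)
  intro hc
  apply hc
  have h0 : c 0 ≠ 0 := by
    intro h0
    apply h2
    rw [h0]
    exact zero_mem _
  refine ⟨h0, Pool.Agent.Results.MP_0e6b5f_nt.PeriodicDegrees.poly_natDegree c h0 v h3, ?_⟩
  rintro δ ⟨k, r, hδ⟩ L _ _ _ P n hn hP
  have hL : NumberField L := NumberField.of_module_finite K L
  obtain ⟨g1, g2, g3⟩ := Pool.Agent.TH377.Dyn.num_facts c v h3
  have hmap : Pool.Agent.Results.MP_0e6b5f_nt.PeriodicDegrees.henon L
      (Pool.Agent.Results.MP_0e6b5f_nt.PeriodicDegrees.poly c) δ =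
      fun Q : L × L => (Q.2, (algebraMap (𝓞 K) L (c 0))⁻¹ *
        ((Pool.Agent.TH377.Dyn.num c).map (algebraMap (𝓞 K) L)).eval Q.2 -
          algebraMap K L δ * Q.1) := by
    funext Q
    rw [← Pool.Agent.TH377.Dyn.map_eq]
    rfl
  rw [hmap] at hP
  have hDk : D ^ k ∉ v.asIdeal := fun h => hDv (v.isPrime.mem_of_pow_mem k h)
  have := Pool.Agent.TH377.Dyn.henon_dvd v (c 0) h1 h0 (Pool.Agent.TH377.Dyn.num c)
    (by rw [g1]; omega) g2 g3 δ r (D ^ k) hDk (by rw [← hδ]; push_cast; rfl) P n hn hP
  rwa [g1] at this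

end proof

/-- **The degrees of the periodic points of Hénon maps along thin sequences, with one exceptional set
for all number fields, integral bases, degrees and denominators of the Jacobian.** -/
theorem result (F : ℕ → ℕ → Finset ℝ) (a : ℕ → ℕ → ℝ → ℝ) (c : ℕ → ℕ → ℝ)
    (h : ∀ i j, Admissible (F i j) (a i j) (c i j))
    (hc : Function.Injective fun q : ℕ × ℕ => c q.1 q.2) :
    ∃ E : Set ℕ, NullIn (fun N => Finset.Ioc N (2 * N)) E ∧
      NullIn (fun N => (Finset.Ioc N (2 * N)).filter Nat.Prime) E ∧
      ∀ (K : Type) [Field K] [NumberField K] (m : ℕ) (ω : Module.Basis (Fin m) ℤ (𝓞 K)) (d : ℕ),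
        2 ≤ d → ∀ D : 𝓞 K, D ≠ 0 →
          {t : ℕ | t ∉ E ∧ vector ω F a d t ∈ Exceptional.{0, 0} K D d}.Finite := by
  obtain ⟨E, h1, h2, h3⟩ := Pool.Agent.N692.TS.one_set h hc
  refine ⟨E, h1, h2, ?_⟩
  intro K _ _ m ω d hd D hD
  refine (h3 K m ω d hd (Algebra.norm ℤ D).natAbs).subset ?_
  rintro t ⟨htE, ht⟩
  exact ⟨htE, fun hg => not_exceptional hd hD _ hg ht⟩

end Pool.Agent.Results.MP_0e6b5f_nt.ThinSequences
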