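import Pool.Agent.N820.SU.All
import Pool.Agent.N680.SQ.Fam
import Pool.Agent.N680.SQ.Cnt

/-!
# MP_90787a_nt: preperiodic points of bounded degree in all families of rational maps, along all
equidistributed sequences

Let `x(n) = (x_0(n), x_1(n), …)` be sequences of integers which are equidistributed modulo all
integers: for all `R`, `q` and all residues `c_0, …, c_{R-1}` modulo `q` the proportion of the `n` in
`S_N ⊆ (N, 2N]` with `x_i(n) ≡ c_i` for `i < R` tends to `q^(-R)`.  For example let `x_i(n)` be the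
integral part of `P_i(n)`, where `P_i(t) = ∑ a_x t ^ x` are generalised polynomials (finitely many real
exponents, real coefficients) with distinct leading exponents which are positive and not integers and
have positive coefficients (for instance `P_i(t) = t ^ (i + √2)`), and let `S_N` be the set of all
integers or of all prime numbers in `(N, 2N]`.

For a number field `k` with the integral basis `ω_0, …, ω_{r-1}` and `m ≥ 0` we get vectors
`v(n) = (v_0(n), …, v_m(n))` of integers of `k`, `v_l(n) = ∑_j x_{r l + j}(n) ω_j`, and rational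
parameters `t(n) = (v_1(n) / v_0(n), …, v_m(n) / v_0(n)) ∈ k^m`.

**Theorem.**  There is a function `N(B, d, A)`, which does not depend on `k`, with the following
property.  For every number field `k` there is ONE set `E` of density zero (for two families `S_N`,
`S'_N` at the same time, for instance for the integers and for the primes) such that for ALL integral
bases of `k`, ALL `m`, `d ≥ 2`, `B`, `A` and ALL rational maps `P / Q` of degree `d` over
`k(t_1, …, t_m)` which are not isotrivial (over `k(t_j : j ≠ i)`, for some `i`) and have a finite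
multiplier fibre at level `A`, and for all but finitely many `n` outside `E`, the specialisation at
`t = t(n)` is a rational map of degree `d` over `k` with at most `N(B, d, A)` preperiodic points of
degree at most `B` over `k`.

By a theorem of McMullen the multiplier fibre is finite, at a level that depends only on `d`, unless
the map is a flexible Lattès map.  For the density in boxes this is the theorem of helper820
(MP_90787a_nt.FiniteFibreFamilies).  In a thin sequence only `N` of the roughly `N ^ (sum of the leading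
exponents)` vectors of a box occur, so the theorem for boxes gives nothing for them; and here one
exceptional set serves all families over `k`, all numbers of parameters and all degrees.

Proof.  The theorem over function fields (helper820) bounds the preperiodic points of the generic
member.  The transfer to the members uses ultraproducts and needs of the notion of density only that
the values of a nonzero polynomial are rarely divisible by a large power of a prime or by a large
prime, and Hilbert's irreducibility theorem (class `Sm` of helper455).  These are true along all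
sequences which are equidistributed modulo all integers (helper455; Hilbert's theorem by the sieve of
helper666).  There are only countably many families over `k`, and a diagonal argument gives one set.
-/

set_option autoImplicit false

namespace Pool.Agent.Results.MP_90787a_nt.SequencesOfMembers

open Polynomial NumberField Filter Topology

/-- The self-map of the projective line `K ∪ {∞}`, where `none` is `∞`, given by the rational
function `p / q`, where `p` and `q` are coprime and `d` is the larger of their degrees: it sends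
`x` to `p(x) / q(x)`, or to `∞` when `q(x) = 0`, and it sends `∞` to the quotient of the
coefficients of degree `d`, or to `∞` when that of `q` is zero. -/
noncomputable def mapP1 {K : Type*} [Field K] (p q : K[X]) (d : ℕ) : Option K → Option K
  | some x => by classical exact if q.eval x = 0 then none else some (p.eval x / q.eval x)
  | none => by classical exact if q.coeff d = 0 then none else some (p.coeff d / q.coeff d)

/-- The Möbius transformation `x ↦ (a x + b) / (c x + e)` of the projective line `K ∪ {∞}`. -/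
noncomputable def moebius {K : Type*} [Field K] (a b c e : K) : Option K → Option K
  | some x => by classical exact if c * x + e = 0 then none else some ((a * x + b) / (c * x + e))
  | none => by classical exact if c = 0 then none else some (a / c)

/-- `l` is a multiplier of the `n`-th iterate of the map `f = p / q` of degree `d`: for some Möbius
transformation `φ` and some coprime polynomials `P, Q` with larger degree `d ^ n` and `P(0) = 0`
one has `(P / Q) ∘ φ = φ ∘ f ^ n` on the projective line, and `l = P'(0) / Q(0)`. So `φ⁻¹(0)` is a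
fixed point of the `n`-th iterate and `l` is the derivative of the iterate at this fixed point, in
the coordinate `φ`. -/
def IsMultiplier {K : Type*} [Field K] (p q : K[X]) (d n : ℕ) (l : K) : Prop :=
  ∃ a b c e : K, a * e - b * c ≠ 0 ∧ ∃ P Q : K[X], IsCoprime P Q ∧
    max P.natDegree Q.natDegree = d ^ n ∧ P.coeff 0 = 0 ∧ l = P.coeff 1 / Q.coeff 0 ∧
    ∀ z, mapP1 P Q (d ^ n) (moebius a b c e z) = moebius a b c e ((mapP1 p q d)^[n] z)

/-- The maps `p / q` and `u / w` of degree `d` have the same set of multipliers for the `n`-th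
iterate, for all `n` with `1 ≤ n ≤ B`. -/
def SameMultipliers {K : Type*} [Field K] (p q u w : K[X]) (d B : ℕ) : Prop :=
  ∀ n, 1 ≤ n → n ≤ B → ∀ l, IsMultiplier u w d n l ↔ IsMultiplier p q d n l

/-- The maps `p / q` and `u / w` of degree `d` are conjugate by a Möbius transformation. -/
def AreConjugate {K : Type*} [Field K] (p q u w : K[X]) (d : ℕ) : Prop :=
  ∃ a b c e : K, a * e - b * c ≠ 0 ∧
    ∀ z, mapP1 u w d (moebius a b c e z) = moebius a b c e (mapP1 p q d z)

/-- The multiplier fibre of the map `p / q` of degree `d` is finite at level `B`: the rational maps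
of degree `d` over `K` which have the same multipliers as `p / q` for all iterates up to the
`B`-th form at most `B` conjugacy classes (that is, among any `B + 1` of them there are two which
are conjugate). -/
def FiniteFibre {K : Type*} [Field K] (p q : K[X]) (d B : ℕ) : Prop :=
  ∀ u w : Fin (B + 1) → K[X], (∀ i, (IsCoprime (u i) (w i) ∧
    max (u i).natDegree (w i).natDegree = d) ∧ SameMultipliers p q (u i) (w i) d B) →
    ∃ i j, i ≠ j ∧ AreConjugate (u i) (w i) (u j) (w j) d

/-- With `φ(x) = (a x + b) / (c x + e)`, the map `p / q` of degree `d` satisfies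
`φ ∘ (p / q) = (u / w) ∘ φ` for some `a, b, c, e` in `K` with `a e ≠ b c` and some polynomials
`u, w` of degree at most `d`, not both zero, with coefficients algebraic over `F`; the equation is
written with denominators cleared. -/
def IsotrivialOver (F : Type*) {K : Type*} [Field F] [Field K] [Algebra F K] (p q : K[X])
    (d : ℕ) : Prop :=
  ∃ a b c e : K, a * e - b * c ≠ 0 ∧ ∃ u w : K[X], (u ≠ 0 ∨ w ≠ 0) ∧
    u.natDegree ≤ d ∧ w.natDegree ≤ d ∧ (∀ n, IsAlgebraic F (u.coeff n)) ∧
    (∀ n, IsAlgebraic F (w.coeff n)) ∧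
    (C a * p + C b * q) * ∑ i ∈ Finset.range (d + 1),
      C (w.coeff i) * (C a * X + C b) ^ i * (C c * X + C e) ^ (d - i) =
    (C c * p + C e * q) * ∑ i ∈ Finset.range (d + 1),
      C (u.coeff i) * (C a * X + C b) ^ i * (C c * X + C e) ^ (d - i)

/-- The field `k(t_1, ..., t_m)`. -/
abbrev RF (k : Type) [Field k] (m : ℕ) : Type := FractionRing (MvPolynomial (Fin m) k)

/-- The subfield `k(t_j : j ≠ i)` of the field `k(t_1, ..., t_m)`. -/
noncomputable def others (k : Type) [Field k] {m : ℕ} (i : Fin m) : Subfield (RF k m) :=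
  (IntermediateField.adjoin k {x : RF k m | ∃ j, j ≠ i ∧
    x = algebraMap (MvPolynomial (Fin m) k) (RF k m) (MvPolynomial.X j)}).toSubfield

/-- `P ∈ k[t_1, ..., t_m][x]` as a polynomial over `k(t_1, ..., t_m)`. -/
noncomputable def generic {k : Type} [Field k] {m : ℕ} (P : (MvPolynomial (Fin m) k)[X]) :
    (RF k m)[X] :=
  P.map (algebraMap (MvPolynomial (Fin m) k) (RF k m))

/-- `P ∈ k[t_1, ..., t_m][x]` as a polynomial over an algebraic closure of `k(t_1, ..., t_m)`. -/
noncomputable def genBar {k : Type} [Field k] {m : ℕ} (P : (MvPolynomial (Fin m) k)[X]) :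
    (AlgebraicClosure (RF k m))[X] :=
  (generic P).map (algebraMap (RF k m) (AlgebraicClosure (RF k m)))

/-- The specialisation of `P ∈ k[t_1, ..., t_m][x]` at `t = (v_1 / v_0, ..., v_m / v_0)`. -/
noncomputable def special {k : Type} [Field k] {m : ℕ} (v : Fin (m + 1) → 𝓞 k)
    (P : (MvPolynomial (Fin m) k)[X]) : k[X] :=
  P.map (MvPolynomial.eval fun l : Fin m =>
    algebraMap (𝓞 k) k (v l.succ) / algebraMap (𝓞 k) k (v 0))

/-- The preperiodic points of degree at most `B` over `k` of the map `p / q` of degree `d`, in the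
projective line over an algebraic closure of `k`. -/
noncomputable def preper {k : Type} [Field k] (p q : k[X]) (d B : ℕ) :
    Set (Option (AlgebraicClosure k)) :=
  {z | (Set.range fun n : ℕ => (mapP1 (p.map (algebraMap k (AlgebraicClosure k)))
      (q.map (algebraMap k (AlgebraicClosure k))) d)^[n] z).Finite ∧
    ∀ x, z = some x → (minpoly k x).natDegree ≤ B}

/-- The integral sequences `x n = (x n 0, x n 1, …)`, `n ∈ S N`, `N → ∞`, are equidistributed modulo
all integers, in all finite sets of coordinates. -/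
def Equidistributed (S : ℕ → Finset ℕ) (x : ℕ → ℕ → ℤ) : Prop :=
  ∀ R q : ℕ, 1 ≤ q → ∀ c : Fin R → ℤ,
    Tendsto (fun N : ℕ => ({n : ℕ | n ∈ S N ∧ ∀ i : Fin R, x n i ≡ c i [ZMOD q]}.ncard : ℝ) /
      (S N).card) atTop (𝓝 (1 / (q : ℝ) ^ R))

/-- `E` has density zero relative to the sets `S N`. -/
def NullIn (S : ℕ → Finset ℕ) (E : Set ℕ) : Prop :=
  ∀ ε : ℝ, 0 < ε → ∃ N₀ : ℕ, ∀ N : ℕ, N₀ ≤ N →
    ({t : ℕ | t ∈ S N ∧ t ∈ E}.ncard : ℝ) ≤ ε * (S N).card

/-- The vector `(v_0, …, v_m)` with `v_l = ∑_j x_{r l + j} ω_j`. -/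
noncomputable def vector {k : Type} [Field k] {r : ℕ} (ω : Module.Basis (Fin r) ℤ (𝓞 k))
    (x : ℕ → ℤ) (m : ℕ) (l : Fin (m + 1)) : 𝓞 k :=
  ∑ j : Fin r, x (r * l + j) • ω j

/-- The specialisation of the rational map `P / Q` of degree `d` at the vector `v` is defined, has
degree `d`, and has at most `M` preperiodic points of degree at most `B`. -/
def Good {k : Type} [Field k] {m : ℕ} (d B M : ℕ) (P Q : (MvPolynomial (Fin m) k)[X])
    (v : Fin (m + 1) → 𝓞 k) : Prop :=
  v 0 ≠ 0 ∧ IsCoprime (special v P) (special v Q) ∧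
    max (special v P).natDegree (special v Q).natDegree = d ∧
    (preper (special v P) (special v Q) d B).encard ≤ (M : ℕ∞)

/-- `c` is the largest exponent of the generalised polynomial `∑ a_x t ^ x`; it is positive and not an
integer and has a positive coefficient. -/
def Admissible (F : Finset ℝ) (a : ℝ → ℝ) (c : ℝ) : Prop :=
  c ∈ F ∧ (∀ x ∈ F, x ≤ c) ∧ 0 < c ∧ (∀ m : ℕ, c ≠ m) ∧ 0 < a c

lemma e_map {K : Type*} [Field K] (p q : K[X]) (d : ℕ) :
    Pool.Agent.N820.SU.mapP1 p q d = mapP1 p q d := by
  funext z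
  cases z <;> rfl

lemma e_mob {K : Type*} [Field K] (a b c e : K) :
    Pool.Agent.N820.SU.mob a b c e = moebius a b c e := by
  funext z
  cases z <;> rfl

lemma e_mult {K : Type*} [Field K] (p q : K[X]) (d n : ℕ) (l : K) :
    Pool.Agent.N820.SU.IsMult p q d n l ↔ IsMultiplier p q d n l := by
  unfold Pool.Agent.N820.SU.IsMult IsMultiplier
  simp only [e_map, e_mob]

lemma e_few {K : Type*} [Field K] (p q : K[X]) (d B : ℕ) (h : FiniteFibre p q d B) :
    Pool.Agent.N820.SU.Few p q d B := by
  intro u w huw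
  obtain ⟨i, j, hij, hc⟩ := h u w fun i => ⟨(huw i).1, fun n h1 h2 l => by
    rw [← e_mult, ← e_mult]
    exact (huw i).2 n h1 h2 l⟩
  refine ⟨i, j, hij, ?_⟩
  unfold Pool.Agent.N820.SU.ConjP1
  simp only [e_map, e_mob]
  exact hc

lemma good_iff {k : Type} [Field k] {m : ℕ} (d B M : ℕ) (P Q : (MvPolynomial (Fin m) k)[X])
    (v : Fin (m + 1) → 𝓞 k) :
    Pool.Agent.N680.SQ.Good k d B m M P Q v ↔ Good d B M P Q v := by
  have e : ∀ (K : Type) [Field K] (p q : K[X]) (d : ℕ),
      mapP1 p q d = Pool.Agent.W277.UH.ratP1 p q d := by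
    intro K _ p q d
    funext z
    cases z <;> rfl
  have e3 : ∀ p q : k[X], preper p q d B = Pool.Agent.Y706.BI.preperB p q d B := by
    intro p q
    unfold preper Pool.Agent.Y706.BI.preperB
    rw [e]
  unfold Good
  rw [e3]
  exact Iff.rfl

lemma vec_eq {k : Type} [Field k] {r : ℕ} (ω : Module.Basis (Fin r) ℤ (𝓞 k)) (x : ℕ → ℤ) (m : ℕ) :
    Pool.Agent.Y706.vec ω (fun lj : Fin (m + 1) × Fin r => x (r * lj.1 + lj.2)) =
      vector ω x m := by
  funext l
  unfold Pool.Agent.Y706.vec Pool.Agent.W275.UB.cv vector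
  refine Finset.sum_congr rfl fun j _ => ?_
  rw [zsmul_eq_mul, mul_comm]

/-- **Families of rational maps along sequences.**  There is a function `N(B, d, A)` such that for all
sequences of integral vectors which are equidistributed modulo all integers (along the sets `S₁ M` and
along the sets `S₂ M`) and every number field `k` there is one set `E` of density zero (for both) with
the following property: for all integral bases of `k` and all non-isotrivial rational maps `P / Q` of
degree `d ≥ 2` over `k(t_1, …, t_m)` with finite multiplier fibre at level `A`, all but finitely many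
`n` outside `E` give a specialisation of degree `d` with at most `N(B, d, A)` preperiodic points of
degree at most `B` over `k`.  The integral parts of generalised polynomials are such sequences, at the
integers and at the prime numbers. -/
theorem result :
    (∃ N : ℕ → ℕ → ℕ → ℕ, ∀ (S₁ S₂ : ℕ → Finset ℕ), (∀ M, S₁ M ⊆ Finset.Ioc M (2 * M)) →
      (∀ M, S₂ M ⊆ Finset.Ioc M (2 * M)) → ∀ x : ℕ → ℕ → ℤ, Equidistributed S₁ x →
      Equidistributed S₂ x → ∀ (k : Type) [Field k] [NumberField k],
        ∃ E : Set ℕ, NullIn S₁ E ∧ NullIn S₂ E ∧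
          ∀ (r : ℕ) (ω : Module.Basis (Fin r) ℤ (𝓞 k)) (d B A : ℕ), 2 ≤ d → 1 ≤ B →
            ∀ (m : ℕ) (P Q : (MvPolynomial (Fin m) k)[X]) (i : Fin m),
              max P.natDegree Q.natDegree = d → IsCoprime (generic P) (generic Q) →
              ¬ IsotrivialOver (others k i) (genBar P) (genBar Q) d →
              FiniteFibre (genBar P) (genBar Q) d A →
              {n : ℕ | n ∉ E ∧ ¬ Good d B (N B d A) P Q (vector ω (x n) m)}.Finite) ∧
    ∀ (F : ℕ → Finset ℝ) (a : ℕ → ℝ → ℝ) (c : ℕ → ℝ), (∀ l, Admissible (F l) (a l) (c l)) →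
      Function.Injective c →
      Equidistributed (fun N => Finset.Ioc N (2 * N))
        (fun n l => ⌊∑ x ∈ F l, a l x * (n : ℝ) ^ x⌋) ∧
      Equidistributed (fun N => (Finset.Ioc N (2 * N)).filter Nat.Prime)
        (fun n l => ⌊∑ x ∈ F l, a l x * (n : ℝ) ^ x⌋) := by
  classical
  refine ⟨?_, ?_⟩
  · obtain ⟨N, hN⟩ := Pool.Agent.N680.SQ.fam Pool.Agent.N820.SU.All.subp.{0, 0}
    refine ⟨N, ?_⟩
    intro S₁ S₂ hS₁ hS₂ x hx₁ hx₂ k _ _
    have c1 := fun r => Pool.Agent.N680.SQ.countable_basis k r
    have c2 := fun m => Pool.Agent.N680.SQ.countable_pol k m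
    let T : Type := Σ r : ℕ, Σ m : ℕ, Module.Basis (Fin r) ℤ (𝓞 k) ×
      (MvPolynomial (Fin m) k)[X] × (MvPolynomial (Fin m) k)[X] × ℕ × ℕ × ℕ
    have hT : Countable T := inferInstance
    let good : T → ℕ → Prop := fun τ n =>
      Good τ.2.2.2.2.2.1 τ.2.2.2.2.2.2.1 (N τ.2.2.2.2.2.2.1 τ.2.2.2.2.2.1 τ.2.2.2.2.2.2.2)
        τ.2.2.2.1 τ.2.2.2.2.1 (vector τ.2.2.1 (x n) τ.2.1)
    let hyp : T → Prop := fun τ => 2 ≤ τ.2.2.2.2.2.1 ∧ 1 ≤ τ.2.2.2.2.2.2.1 ∧ ∃ i,
      Pool.Agent.N680.SQ.Hyp k τ.2.2.2.2.2.1 τ.2.2.2.2.2.2.2 τ.2.1 τ.2.2.2.1 τ.2.2.2.2.1 i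
    have hnull : ∀ (S : ℕ → Finset ℕ), Equidistributed S x → ∀ τ : T,
        Pool.Agent.N666.TM.NullIn S {n | hyp τ ∧ ¬ good τ n} := by
      rintro S hS ⟨r, m, ω, P, Q, d, B, A⟩
      by_cases hh : hyp ⟨r, m, ω, P, Q, d, B, A⟩
      · obtain ⟨hd, hB, i, hi⟩ := hh
        have hw := Pool.Agent.N680.SQ.ws_of (x := x) hS m r
        have h1 := @hN k _ _ (Fin r) _ ω d B A hd hB m (Pool.Agent.N455.TX.smOf hw) P Q i hi
        have h2 := Pool.Agent.N680.SQ.null_of hw _ h1
        refine Pool.Agent.N455.HT.NullIn.mono' h2 ?_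
        rintro n ⟨-, hn⟩
        change ¬ Pool.Agent.N680.SQ.Good k d B m (N B d A) P Q
          (Pool.Agent.Y706.vec ω (fun lj : Fin (m + 1) × Fin r => x n (r * lj.1 + lj.2)))
        rw [vec_eq, good_iff]
        exact hn
      · refine Pool.Agent.N455.HT.NullIn.mono' Pool.Agent.N455.HT.NullIn.empty' ?_
        rintro n ⟨h, -⟩
        exact hh h
    obtain ⟨E, h1, h2, h3⟩ := Pool.Agent.N680.SQ.one_set hS₁ hS₂
      (fun τ : T => {n | hyp τ ∧ ¬ good τ n}) (hnull S₁ hx₁) (hnull S₂ hx₂)
    refine ⟨E, h1, h2, ?_⟩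
    intro r ω d B A hd hB m P Q i hmax hco hiso hfib
    refine (h3 ⟨r, m, ω, P, Q, d, B, A⟩).subset ?_
    rintro n ⟨hn, hbad⟩
    exact ⟨⟨⟨hd, hB, i, hmax, hco, hiso, e_few _ _ _ _ hfib⟩, hbad⟩, hn⟩
  · intro F a c h hc
    have hne : ∀ R : ℕ, 1 ≤ R → ∀ S : ℕ → Finset ℕ,
        (∃ κ : ℝ, 0 < κ ∧ ∃ N₀ : ℕ, ∀ N : ℕ, N₀ ≤ N → ∀ H : ℕ, (H : ℝ) ≤ (N : ℝ) ^ κ →
          Pool.Agent.N666.TM.Well (S N) (Pool.Agent.N666.TM.fl (fun i : Fin R => F i)
            (fun i : Fin R => a i)) H) →
        Pool.Agent.N455.HT.Equi S (fun n (i : Fin R) => ⌊∑ x ∈ F i, a i x * (n : ℝ) ^ x⌋) := by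
      intro R _ S hw
      exact Pool.Agent.N455.HT.Equi.of_ws (Pool.Agent.N455.HT.WS.of_power hw)
    have key : ∀ S : ℕ → Finset ℕ,
        (∀ R : ℕ, 1 ≤ R → Pool.Agent.N455.HT.Equi S
          (fun n (i : Fin R) => ⌊∑ x ∈ F i, a i x * (n : ℝ) ^ x⌋)) →
        Equidistributed S (fun n l => ⌊∑ x ∈ F l, a l x * (n : ℝ) ^ x⌋) := by
      intro S hS R q hq r
      rcases Nat.eq_zero_or_pos R with rfl | hR
      · have h1 := hS 1 le_rfl 1 le_rfl (fun _ => 0)
        have h2 : ∀ N, {n : ℕ | n ∈ S N ∧ ∀ i : Fin 0,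
            ⌊∑ x ∈ F i, a i x * (n : ℝ) ^ x⌋ ≡ r i [ZMOD q]} =
            {n : ℕ | n ∈ S N ∧ ∀ i : Fin 1, ⌊∑ x ∈ F i, a i x * (n : ℝ) ^ x⌋ ≡
              (fun _ => 0 : Fin 1 → ℤ) i [ZMOD (1 : ℕ)]} := by
          intro N
          ext n
          simp only [Set.mem_ofPred_eq]
          refine and_congr_right fun _ => ⟨fun _ i => ?_, fun _ i => i.elim0⟩
          rw [Nat.cast_one]
          exact Int.modEq_one
        simp only [h2]
        simpa using h1
      · have h1 := hS R hR q hq r
        rw [Fintype.card_fin] at h1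
        exact h1
    have hw : ∀ R : ℕ, 1 ≤ R →
        (∃ κ : ℝ, 0 < κ ∧ ∃ N₀ : ℕ, ∀ N : ℕ, N₀ ≤ N → ∀ H : ℕ, (H : ℝ) ≤ (N : ℝ) ^ κ →
          Pool.Agent.N666.TM.Well (Finset.Ioc N (2 * N)) (Pool.Agent.N666.TM.fl
            (fun i : Fin R => F i) (fun i : Fin R => a i)) H) ∧
        (∃ κ : ℝ, 0 < κ ∧ ∃ N₀ : ℕ, ∀ N : ℕ, N₀ ≤ N → ∀ H : ℕ, (H : ℝ) ≤ (N : ℝ) ^ κ →
          Pool.Agent.N666.TM.Well (Pool.Agent.N666.VE.primes N) (Pool.Agent.N666.TM.fl
            (fun i : Fin R => F i) (fun i : Fin R => a i)) H) := by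
      intro R hR
      have : Nonempty (Fin R) := ⟨⟨0, hR⟩⟩
      exact Pool.Agent.N666.TM.fl_well (ι := Fin R) (F := fun i => F i) (a := fun i => a i)
        (c := fun i => c i) (fun i => h i) (fun i j hij => Fin.ext (hc hij))
    exact ⟨key _ fun R hR => hne R hR _ (hw R hR).1, key _ fun R hR => hne R hR _ (hw R hR).2⟩

end Pool.Agent.Results.MP_90787a_nt.SequencesOfMembers
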