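import Pool.Agent.N692.TS.Main
import Pool.Agent.N680.RM.Rat

/-!
# MP_c076ed_nt: preperiodic points of thin families of rational maps and of all their integral
perturbations

Let `K` be a number field and `d ≥ 2`.  For a vector `(b, c₀, …, c_d)` of integers of `K` let
`F = c₀ + c₁ x + … + c_d x^d`.  We consider the rational maps

  `f = (F + b G H) / (b G) = F / (b G) + H`,  `G, H ∈ O_K[x]`, `deg G < d`, `deg G + deg H ≤ d`,

where the leading coefficient of `G` divides a power of a fixed element `D ≠ 0` of `O_K`; for example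
all monic `G`, for `D = 1`.  The degrees of `G` and `H` are bounded, their coefficients are not.

Let `P_{i j}` (`i, j = 0, 1, 2, …`) be generalised polynomials `P(t) = ∑ a_x t ^ x` (finitely many
real exponents, real coefficients) with distinct leading exponents which are positive and not integers
and have positive coefficients, for example `P_{i j}(t) = t ^ ((i + j)² + i + √2)`.  For the integral
basis `ω_0, …, ω_{m-1}` of `K` we consider the vectors of integers of `K`

  `c_i(t) = ∑_j ⌊P_{i j}(t)⌋ ω_j`,  `i = 0, …, d + 1`,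

and let `b = c_0(t)` and `F = c_1(t) + c_2(t) x + … + c_{d+1}(t) x^d`.

**Theorem.**  There is ONE set `E` of positive integers of natural density zero, which has density zero
also in the set of the prime numbers, such that for ALL number fields `K`, all integral bases of `K`,
all degrees `d ≥ 2`, all nonzero `D ∈ O_K`, and for all but finitely many `t` outside `E` the
following holds for ALL pairs `(G, H)` as above at once: `F + b G H` has degree `d` and is prime to
`b G`, so that `f` is an endomorphism of degree `d` of the projective line, and for all number fields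
`L ⊇ K` with `d ∤ [L : K]` the preperiodic points of `f` in `P¹(L)` are exactly `∞` and the zeros of
`G` in `L`; so there are at most `d` of them.  More generally, for every sequence `(G_k, H_k)` of such
pairs with the maps `f_k`, a point `P` of `P¹(L)` either has `f_0(P) = ∞` (that is, `P = ∞` or
`G_0(P) = 0`), or the points `P, f_0(P), f_1(f_0(P)), …` are pairwise different.

In particular (`K = ℚ`, `L = ℚ`) the bound of the conjecture of Morton and Silverman with
`C(d) = d` holds for all integral perturbations of almost all members of these families, and for all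
number fields `L` of degree not divisible by `d` in place of `ℚ`.

Proof.  Let `v` be a prime of `K` which does not divide `D` and divides `b`, such that `F` is
irreducible of degree `d` modulo `v`.  If `d ∤ [L : K]`, then there is a place `w` of `L` above `v`
whose residue degree is not divisible by `d`, because `∑ e(w|v) f(w|v) = [L : K]`; so `F` has no root
in the residue field of `w`.  If `|x|_w ≤ 1` and `G(x) ≠ 0`, then `|F(x)|_w = 1` and
`|f(x)|_w ≥ 1/|b|_w > 1`.  If `|x|_w > 1`, then
`|F(x)/(b G(x))|_w = |x|_w^(d - deg G) / |b|_w` is larger than `|x|_w` and than `|H(x)|_w`, and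
`|f(x)|_w > |x|_w`.  Such a prime `v` exists for almost all `t`: for the prime numbers `p` that are norms
of prime ideals `v` of `K` the condition that `v` divides `b` exactly and `F` is irreducible modulo `v`
has density at least `(1/4d) (1/p - 1/p²)` in the residues modulo `p²` of the `⌊P_{i j}(t)⌋`; the
sum of these densities diverges, the integers `⌊P_{i j}(t)⌋` are jointly equidistributed modulo all
`q ≤ N^δ` (exponential sums), over the integers and over the prime numbers `t ≤ N`, and one uses
Turan's sieve.  A diagonal argument gives one set for all `K`, `d` and `D`.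
-/

set_option autoImplicit false
set_option maxHeartbeats 400000

namespace Pool.Agent.Results.MP_c076ed_nt.ThinRationalMaps

open NumberField Module Polynomial

/-- `c` is the largest exponent of the generalised polynomial `∑ a_x t ^ x`; it is positive and not an
integer and has a positive coefficient. -/
def Admissible (F : Finset ℝ) (a : ℝ → ℝ) (c : ℝ) : Prop :=
  c ∈ F ∧ (∀ x ∈ F, x ≤ c) ∧ 0 < c ∧ (∀ m : ℕ, c ≠ m) ∧ 0 < a c

/-- `E` has density zero relative to the sets `S N`. -/
def NullIn (S : ℕ → Finset ℕ) (E : Set ℕ) : Prop :=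
  ∀ ε : ℝ, 0 < ε → ∃ N₀ : ℕ, ∀ N : ℕ, N₀ ≤ N →
    ({t : ℕ | t ∈ S N ∧ t ∈ E}.ncard : ℝ) ≤ ε * (S N).card

/-- The vector of the integers `c_i(t) = ∑_j ⌊P_{i j}(t)⌋ ω_j` of `K`, where
`P_{i j}(t) = ∑_{x ∈ F i j} a_{i j x} t ^ x`. -/
noncomputable def vector {K : Type} [Field K] {m : ℕ} (ω : Module.Basis (Fin m) ℤ (𝓞 K))
    (F : ℕ → ℕ → Finset ℝ) (a : ℕ → ℕ → ℝ → ℝ) (d t : ℕ) (i : Fin (d + 2)) : 𝓞 K :=
  ∑ j : Fin m, ⌊∑ x ∈ F i j, a i j x * (t : ℝ) ^ x⌋ • ω j

/-- The self-map of `P¹(L) = L ∪ {∞}`, where `none` is the point `∞`, given by the rational function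
`A / B`, for coprime polynomials `A`, `B` over `K` with `deg B < deg A`. -/
noncomputable def ratMap {K : Type} [Field K] (L : Type) [Field L] [Algebra K L] (A B : K[X]) :
    Option L → Option L
  | none => none
  | some x => open Classical in if aeval x B = 0 then none else some (aeval x A / aeval x B)

/-- The numerator `F + b G H`, for the vector `c = (b, c₀, …, c_d)` and `F = c₀ + … + c_d x^d`. -/
noncomputable def numerator {K : Type} [Field K] {d : ℕ} (c : Fin (d + 2) → 𝓞 K)
    (G H : (𝓞 K)[X]) : K[X] :=
  (∑ i : Fin (d + 1), C (c i.succ : K) * X ^ (i : ℕ)) +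
    C (c 0 : K) * G.map (algebraMap (𝓞 K) K) * H.map (algebraMap (𝓞 K) K)

/-- The denominator `b G`. -/
noncomputable def denominator {K : Type} [Field K] {d : ℕ} (c : Fin (d + 2) → 𝓞 K)
    (G : (𝓞 K)[X]) : K[X] :=
  C (c 0 : K) * G.map (algebraMap (𝓞 K) K)

/-- `deg G < d`, `deg G + deg H ≤ d` (the zero polynomial `H` is allowed), and the leading coefficient
of `G` divides a power of `D`. -/
def Allowed {K : Type} [Field K] (D : 𝓞 K) (d : ℕ) (G H : (𝓞 K)[X]) : Prop :=
  (∃ k : ℕ, G.leadingCoeff ∣ D ^ k) ∧ G.natDegree < d ∧ G.natDegree + H.natDegree ≤ d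

/-- The orbit `P, f_0(P), f_1(f_0(P)), …` of `P` under a sequence of maps. -/
def orbit {X : Type} (f : ℕ → X → X) (P : X) : ℕ → X
  | 0 => P
  | k + 1 => f k (orbit f P k)

/-- `P` is preperiodic for `f`: two different iterates agree. -/
def IsPreperiodic {X : Type} (f : X → X) (P : X) : Prop :=
  ∃ m n : ℕ, m < n ∧ f^[n] P = f^[m] P

/-- The properties of the vector `c = (b, c₀, …, c_d)` of integers of `K`: `b ≠ 0`; for all allowed
pairs `(G, H)` the numerator `F + b G H` has degree `d` and is prime to the denominator `b G`; for all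
finite extensions `L` of `K` with `d ∤ [L : K]` the preperiodic points in `P¹(L)` of the map
`(F + b G H) / (b G)` are `∞` and the zeros of `G`, and their number is at most `d`; and for all
sequences of allowed pairs, with the sequence `f_k` of maps, and all `P ∈ P¹(L)` either
`f_0(P) = ∞` or the points of the orbit of `P` are pairwise different. -/
def Wandering (K : Type) [Field K] (D : 𝓞 K) (d : ℕ) (c : Fin (d + 2) → 𝓞 K) : Prop :=
  c 0 ≠ 0 ∧
  (∀ G H : (𝓞 K)[X], Allowed D d G H →
    (numerator c G H).natDegree = d ∧ IsCoprime (numerator c G H) (denominator c G) ∧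
    ∀ (L : Type) [Field L] [Algebra K L] [FiniteDimensional K L], ¬ d ∣ finrank K L →
      {P : Option L | IsPreperiodic (ratMap L (numerator c G H) (denominator c G)) P} =
        insert none (some '' {x : L | aeval x (G.map (algebraMap (𝓞 K) K)) = 0}) ∧
      {P : Option L |
        IsPreperiodic (ratMap L (numerator c G H) (denominator c G)) P}.ncard ≤ d) ∧
  ∀ G H : ℕ → (𝓞 K)[X], (∀ k, Allowed D d (G k) (H k)) →
    ∀ (L : Type) [Field L] [Algebra K L] [FiniteDimensional K L], ¬ d ∣ finrank K L →
      ∀ P : Option L, ratMap L (numerator c (G 0) (H 0)) (denominator c (G 0)) P = none ∨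
        Function.Injective
          (orbit (fun k => ratMap L (numerator c (G k) (H k)) (denominator c (G k))) P)

section proof

open IsDedekindDomain Pool.Agent.TH377.Dyn Pool.Agent.TH377.Sup

/-- A nonzero element of a prime ideal divides its norm, so the factorial of the norm of the element
lies in the prime ideal. -/
theorem fac_mem {K : Type} [Field K] [NumberField K] {D : 𝓞 K} (hD : D ≠ 0)
    (v : HeightOneSpectrum (𝓞 K)) (h : D ∈ v.asIdeal) :
    ((Nat.factorial (Algebra.norm ℤ D).natAbs : ℕ) : 𝓞 K) ∈ v.asIdeal := by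
  have h1 : (Ideal.absNorm (Ideal.span {D}) : 𝓞 K) ∈ Ideal.span {D} := Ideal.absNorm_mem _
  have h2 : Ideal.span {D} ≤ v.asIdeal := (Ideal.span_singleton_le_iff_mem _).2 h
  have h3 : (((Algebra.norm ℤ D).natAbs : ℕ) : 𝓞 K) ∈ v.asIdeal := by
    have := h2 h1
    rwa [Ideal.absNorm_span_singleton] at this
  have h4 : (Algebra.norm ℤ D).natAbs ≠ 0 := by
    rw [Ne, Int.natAbs_eq_zero, Algebra.norm_eq_zero_iff]
    exact hD
  obtain ⟨k, hk⟩ := Nat.dvd_factorial (Nat.pos_of_ne_zero h4) le_rfl
  rw [hk, Nat.cast_mul]
  exact v.asIdeal.mul_mem_right _ h3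

variable {K : Type} [Field K] [NumberField K] {d : ℕ}

omit [NumberField K] in
theorem num_map (c : Fin (d + 2) → 𝓞 K) :
    (∑ i : Fin (d + 1), C (c i.succ : K) * X ^ (i : ℕ) : K[X]) =
      (num c).map (algebraMap (𝓞 K) K) := by
  rw [num, pol_map]
  rfl

theorem ratMap_eq (L : Type) [Field L] [Algebra K L] (c : Fin (d + 2) → 𝓞 K) (h0 : c 0 ≠ 0)
    (G H : (𝓞 K)[X]) : ratMap L (numerator c G H) (denominator c G) =
      Pool.Agent.N680.RM.pert L (num c) G H (c 0) := by
  classical
  have hinj : Function.Injective (algebraMap (𝓞 K) L) :=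
    FaithfulSMul.algebraMap_injective (𝓞 K) L
  have hb : algebraMap (𝓞 K) L (c 0) ≠ 0 := by rwa [Ne, map_eq_zero_iff _ hinj]
  have e1 : ∀ (x : L) (P : (𝓞 K)[X]), aeval x (P.map (algebraMap (𝓞 K) K)) =
      (P.map (algebraMap (𝓞 K) L)).eval x := by
    intro x P
    rw [aeval_map_algebraMap, eval_map_algebraMap]
  have e2 : algebraMap K L (c 0 : K) = algebraMap (𝓞 K) L (c 0) :=
    (IsScalarTower.algebraMap_apply (𝓞 K) K L (c 0)).symm
  funext P
  cases P with
  | none => rfl
  | some x =>
    have e3 : aeval x (denominator c G) = algebraMap (𝓞 K) L (c 0) *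
        (G.map (algebraMap (𝓞 K) L)).eval x := by
      rw [denominator, map_mul, aeval_C, e1, e2]
    have e4 : aeval x (numerator c G H) = (((num c).map (algebraMap (𝓞 K) L)).eval x +
        algebraMap (𝓞 K) L (c 0) * (G.map (algebraMap (𝓞 K) L)).eval x *
          (H.map (algebraMap (𝓞 K) L)).eval x) := by
      rw [numerator, map_add, map_mul, map_mul, aeval_C, num_map, e1, e1, e1, e2]
    change (if aeval x (denominator c G) = 0 then none
      else some (aeval x (numerator c G H) / aeval x (denominator c G))) =
      (if (G.map (algebraMap (𝓞 K) L)).eval x = 0 then none else _)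
    by_cases hG : (G.map (algebraMap (𝓞 K) L)).eval x = 0
    · rw [if_pos hG, if_pos (by rw [e3, hG, mul_zero])]
    · rw [if_neg hG, if_neg (by rw [e3]; exact mul_ne_zero hb hG), e3, e4]

theorem orbit_eq {X : Type} (f : ℕ → X → X) (P : X) :
    orbit f P = Pool.Agent.N680.RM.orbit f P := by
  funext n
  induction n with
  | zero => rfl
  | succ n ih =>
    change f n (orbit f P n) = f n (Pool.Agent.N680.RM.orbit f P n)
    rw [ih]

theorem orbit_const {X : Type} (f : X → X) (P : X) (n : ℕ) :
    orbit (fun _ => f) P n = f^[n] P := by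
  induction n with
  | zero => rfl
  | succ n ih =>
    rw [Function.iterate_succ_apply']
    change f (orbit (fun _ => f) P n) = _
    rw [ih]

theorem wandering (hd : 2 ≤ d) {D : 𝓞 K} (hD : D ≠ 0) (c : Fin (d + 2) → 𝓞 K)
    (h : Pool.Agent.N692.TS.LocGood d (Algebra.norm ℤ D).natAbs c) : Wandering K D d c := by
  classical
  obtain ⟨v, hMv, h1, h2, h3⟩ := h
  have hDv : D ∉ v.asIdeal := fun h => hMv (fac_mem hD v h)
  have h0 : c 0 ≠ 0 := by
    intro h0
    apply h2
    rw [h0]
    exact zero_mem _
  obtain ⟨g1, g2, g3⟩ := num_facts c v h3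
  have hlG : ∀ G H : (𝓞 K)[X], Allowed D d G H → G.leadingCoeff ∉ v.asIdeal := by
    rintro G H ⟨⟨k, e, hk⟩, -, -⟩ hG
    apply hDv
    refine v.isPrime.mem_of_pow_mem k ?_
    rw [hk]
    exact v.asIdeal.mul_mem_right _ hG
  have key : ∀ G H : ℕ → (𝓞 K)[X], (∀ k, Allowed D d (G k) (H k)) →
      ∀ (L : Type) [Field L] [Algebra K L] [FiniteDimensional K L], ¬ d ∣ finrank K L →
        ∀ x : L, aeval x ((G 0).map (algebraMap (𝓞 K) K)) ≠ 0 →
          Function.Injective
            (orbit (fun k => ratMap L (numerator c (G k) (H k)) (denominator c (G k)))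
              (some x)) := by
    intro G H hGH L _ _ _ hL x hx
    have hLN : NumberField L := NumberField.of_module_finite K L
    have h4 : (fun k => ratMap L (numerator c (G k) (H k)) (denominator c (G k))) =
        fun k => Pool.Agent.N680.RM.pert L (num c) (G k) (H k) (c 0) := by
      funext k
      exact ratMap_eq L c h0 _ _
    rw [h4, orbit_eq]
    refine Pool.Agent.N680.RM.pert_orbit v (c 0) h1 h0 (num c) g2 g3 G H
      (fun k => hlG _ _ (hGH k)) (fun k => ?_) (fun k => ?_) (by rwa [g1]) x ?_
    · rw [g1]
      exact (hGH k).2.1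
    · rw [g1]
      exact (hGH k).2.2
    · rwa [aeval_map_algebraMap, ← eval_map_algebraMap] at hx
  have hpole : ∀ G H : (𝓞 K)[X], ∀ (L : Type) [Field L] [Algebra K L], ∀ x : L,
      aeval x (G.map (algebraMap (𝓞 K) K)) = 0 →
        ratMap L (numerator c G H) (denominator c G) (some x) = none := by
    intro G H L _ _ x hx
    change (if aeval x (denominator c G) = 0 then none else _) = none
    rw [if_pos]
    rw [denominator, map_mul, hx, mul_zero]
  refine ⟨h0, fun G H hGH => ⟨?_, ?_, ?_⟩, ?_⟩
  · -- the degree
    obtain ⟨N0, hN0⟩ : ∃ N0 : (𝓞 K)[X], N0 = num c + C (c 0) * G * H := ⟨_, rfl⟩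
    have e1 : numerator c G H = N0.map (algebraMap (𝓞 K) K) := by
      rw [numerator, num_map, hN0, Polynomial.map_add, Polynomial.map_mul, Polynomial.map_mul,
        Polynomial.map_C]
    have hinjK : Function.Injective (algebraMap (𝓞 K) K) :=
      FaithfulSMul.algebraMap_injective (𝓞 K) K
    rw [e1, natDegree_map_eq_of_injective hinjK]
    refine natDegree_eq_of_le_of_coeff_ne_zero ?_ ?_
    · rw [hN0]
      refine natDegree_add_le_of_degree_le g1.le ?_
      refine (natDegree_mul_le.trans (Nat.add_le_add_right (natDegree_C_mul_le _ _) _)).trans ?_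
      exact hGH.2.2
    · intro h
      have h5 : N0.coeff d ∈ v.asIdeal := by
        rw [h]
        exact zero_mem _
      have h6 : N0.coeff d = (num c).leadingCoeff + c 0 * (G * H).coeff d := by
        rw [hN0, coeff_add, mul_assoc, coeff_C_mul, leadingCoeff, g1]
      rw [h6] at h5
      exact g2 (((v.asIdeal).add_mem_iff_left (v.asIdeal.mul_mem_right _ h1)).1 h5)
  · -- coprime
    have hG0 : G ≠ 0 := by
      intro h
      apply hlG G H hGH
      rw [h, leadingCoeff_zero]
      exact zero_mem _
    have h4 := num_coprime v (num c) g2 g3 G hG0 (by rw [g1]; exact hGH.2.1)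
    have h5 : IsUnit (C (c 0 : K)) := isUnit_C.2 (isUnit_iff_ne_zero.2 (by exact_mod_cast h0))
    rw [numerator, denominator, num_map]
    refine IsCoprime.mul_right ?_ ?_
    · obtain ⟨u, hu⟩ := h5
      exact ⟨0, ↑u⁻¹, by rw [zero_mul, zero_add, ← hu, Units.inv_mul]⟩
    · have h6 : C (c 0 : K) * G.map (algebraMap (𝓞 K) K) * H.map (algebraMap (𝓞 K) K) =
        (C (c 0 : K) * H.map (algebraMap (𝓞 K) K)) * G.map (algebraMap (𝓞 K) K) := by ring
      rw [h6]
      exact h4.add_mul_right_left _
  · -- the preperiodic points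
    intro L _ _ _ hL
    have hset : {P : Option L | IsPreperiodic (ratMap L (numerator c G H) (denominator c G)) P} =
        insert none (some '' {x : L | aeval x (G.map (algebraMap (𝓞 K) K)) = 0}) := by
      ext P
      constructor
      · rintro ⟨m, n, hmn, hP⟩
        cases P with
        | none => exact Set.mem_insert _ _
        | some x =>
          refine Set.mem_insert_of_mem _ ⟨x, ?_, rfl⟩
          by_contra hx
          have h4 := key (fun _ => G) (fun _ => H) (fun _ => hGH) L hL x hx
          rw [← orbit_const, ← orbit_const] at hP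
          exact hmn.ne' (h4 hP)
      · intro hP
        rcases hP with hP | ⟨x, hx, hP⟩
        · subst hP
          exact ⟨0, 1, one_pos, rfl⟩
        · subst hP
          refine ⟨1, 2, by norm_num, ?_⟩
          rw [Function.iterate_succ_apply', Function.iterate_one, hpole G H L x hx]
          rfl
    refine ⟨hset, ?_⟩
    rw [hset]
    have hG0 : G.map (algebraMap (𝓞 K) K) ≠ 0 := by
      have hinjK : Function.Injective (algebraMap (𝓞 K) K) :=
        FaithfulSMul.algebraMap_injective (𝓞 K) K
      rw [Ne, Polynomial.map_eq_zero_iff hinjK]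
      intro h
      apply hlG G H hGH
      rw [h, leadingCoeff_zero]
      exact zero_mem _
    have hfin : {x : L | aeval x (G.map (algebraMap (𝓞 K) K)) = 0} ⊆
        ((G.map (algebraMap (𝓞 K) K)).aroots L).toFinset := by
      intro x hx
      rw [Finset.mem_coe, Multiset.mem_toFinset, mem_aroots]
      exact ⟨hG0, hx⟩
    have hcard : {x : L | aeval x (G.map (algebraMap (𝓞 K) K)) = 0}.ncard ≤ G.natDegree := by
      refine (Set.ncard_le_ncard hfin (Finset.finite_toSet _)).trans ?_
      rw [Set.ncard_coe_finset]
      refine (Multiset.toFinset_card_le _).trans ((card_roots' _).trans ?_)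
      rw [natDegree_map, natDegree_map_eq_of_injective
        (FaithfulSMul.algebraMap_injective (𝓞 K) K)]
    refine (Set.ncard_insert_le _ _).trans ?_
    rw [Set.ncard_image_of_injective _ (Option.some_injective L)]
    have := hGH.2.1
    omega
  · intro G H hGH L _ _ _ hL P
    cases P with
    | none => exact Or.inl rfl
    | some x =>
      by_cases hx : aeval x ((G 0).map (algebraMap (𝓞 K) K)) = 0
      · exact Or.inl (hpole _ _ L x hx)
      · exact Or.inr (key G H hGH L hL x hx)

end proof

/-- **Preperiodic points of thin families of rational maps and all their integral perturbations, with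
one exceptional set for all number fields, integral bases, degrees and denominators.** -/
theorem result (F : ℕ → ℕ → Finset ℝ) (a : ℕ → ℕ → ℝ → ℝ) (c : ℕ → ℕ → ℝ)
    (h : ∀ i j, Admissible (F i j) (a i j) (c i j))
    (hc : Function.Injective fun q : ℕ × ℕ => c q.1 q.2) :
    ∃ E : Set ℕ, NullIn (fun N => Finset.Ioc N (2 * N)) E ∧
      NullIn (fun N => (Finset.Ioc N (2 * N)).filter Nat.Prime) E ∧
      ∀ (K : Type) [Field K] [NumberField K] (m : ℕ) (ω : Module.Basis (Fin m) ℤ (𝓞 K)) (d : ℕ),
        2 ≤ d → ∀ D : 𝓞 K, D ≠ 0 →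
          {t : ℕ | t ∉ E ∧ ¬ Wandering K D d (vector ω F a d t)}.Finite := by
  obtain ⟨E, h1, h2, h3⟩ := Pool.Agent.N692.TS.one_set h hc
  refine ⟨E, h1, h2, ?_⟩
  intro K _ _ m ω d hd D hD
  refine (h3 K m ω d hd (Algebra.norm ℤ D).natAbs).subset ?_
  rintro t ⟨htE, ht⟩
  exact ⟨htE, fun hg => ht (wandering hd hD _ hg)⟩

end Pool.Agent.Results.MP_c076ed_nt.ThinRationalMaps
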